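import Pool.Agent.Y522.NA.StmP
import Pool.Agent.Y98.NA.Term

/-!
# NP-End: mollifications of local diffeomorphisms are close to them with their derivatives
-/

set_option autoImplicit false

open Set Filter Topology Metric Function MeasureTheory
open scoped Manifold ContDiff

noncomputable section

namespace Pool.Agent.Y356.NA

open Pool.Agent.Y522 Pool.Agent.Y522.NA Pool.Agent.Y98.NA

variable {n q : ℕ}

/-- the inverses of the derivatives are bounded near a point -/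
lemma inv_bd {g : E n → E n} (hg : LD n g 0) : ∃ m : ℝ, 0 < m ∧ ∀ᶠ z in 𝓝 (0 : E n),
    ∃ L : E n ≃L[ℝ] E n, HasFDerivAt g (L : E n →L[ℝ] E n) z ∧ ∀ v, ‖L.symm v‖ ≤ m * ‖v‖ := by
  have hgev : ∀ᶠ z in 𝓝 (0 : E n), ContDiffAt ℝ ∞ g z :=
    hg.eventually.mono fun w hw => hw.contDiffAt
  obtain ⟨A0, hA0⟩ := hg.exists_equiv
  obtain ⟨m0, hm0d⟩ : ∃ m0 : ℝ, m0 = ‖(A0.symm : E n →L[ℝ] E n)‖ + 1 := ⟨_, rfl⟩
  have hm0 : 0 < m0 := by
    rw [hm0d]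
    positivity
  have hA0b : ∀ v, ‖v‖ ≤ m0 * ‖A0 v‖ := by
    intro v
    have h1 := (A0.symm : E n →L[ℝ] E n).le_opNorm (A0 v)
    rw [ContinuousLinearEquiv.coe_coe, A0.symm_apply_apply] at h1
    refine h1.trans (mul_le_mul_of_nonneg_right ?_ (norm_nonneg _))
    rw [hm0d]
    linarith
  have h1 : ContDiffAt ℝ 1 (fderiv ℝ g) 0 :=
    hgev.self_of_nhds.fderiv_right (m := 1) (by norm_cast)
  have h2 : ∀ᶠ z in 𝓝 (0 : E n), dist (fderiv ℝ g z) (fderiv ℝ g 0) < 1 / (2 * m0) :=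
    Metric.tendsto_nhds.1 h1.continuousAt _ (by positivity)
  refine ⟨2 * m0, by positivity, ?_⟩
  filter_upwards [h2, hg.eventually] with z hz1 hz2
  obtain ⟨L, hL⟩ := hz2.exists_equiv
  refine ⟨L, hL, fun v => ?_⟩
  rw [hL.fderiv, hA0.fderiv, dist_eq_norm] at hz1
  have h6 := ((L : E n →L[ℝ] E n) - (A0 : E n →L[ℝ] E n)).le_opNorm (L.symm v)
  have h7 : ((L : E n →L[ℝ] E n) - (A0 : E n →L[ℝ] E n)) (L.symm v) = v - A0 (L.symm v) := by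
    simp
  rw [h7] at h6
  have h8 : ‖v - A0 (L.symm v)‖ ≤ 1 / (2 * m0) * ‖L.symm v‖ :=
    h6.trans (mul_le_mul_of_nonneg_right hz1.le (norm_nonneg _))
  have h9 : ‖A0 (L.symm v)‖ ≤ ‖v‖ + 1 / (2 * m0) * ‖L.symm v‖ := by
    have h10 := norm_sub_le v (v - A0 (L.symm v))
    rw [sub_sub_cancel] at h10
    linarith
  have h10 := hA0b (L.symm v)
  have h11 : m0 * ‖A0 (L.symm v)‖ ≤ m0 * (‖v‖ + 1 / (2 * m0) * ‖L.symm v‖) :=
    mul_le_mul_of_nonneg_left h9 hm0.le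
  have h12 : m0 * (‖v‖ + 1 / (2 * m0) * ‖L.symm v‖) = m0 * ‖v‖ + ‖L.symm v‖ / 2 := by
    field_simp
  rw [h12] at h11
  linarith

theorem stEnd : StEnd := by
  intro n κ q g E0 T S y hg hE hT δ hδ
  obtain ⟨C, hC, hterm⟩ := term n κ
  have hgev : ∀ᶠ z in 𝓝 (0 : E n), ContDiffAt ℝ ∞ g z :=
    hg.eventually.mono fun w hw => hw.contDiffAt
  have hgc : ∀ᶠ z in 𝓝 (0 : E n), ContinuousAt g z := hgev.mono fun z hz => hz.continuousAt
  obtain ⟨Λ, t, ht, hΛ⟩ :=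
    (hgev.self_of_nhds.of_le (by simp) : ContDiffAt ℝ 1 g 0).exists_lipschitzOnWith
  have hgl : ∀ᶠ w in 𝓝 (0 : E n), ∀ᶠ w' in 𝓝 w, ‖g w' - g w‖ ≤ (Λ : ℝ) * ‖w' - w‖ := by
    have ht' : ∀ᶠ w in 𝓝 (0 : E n), w ∈ t := ht
    filter_upwards [eventually_eventually_nhds.2 ht', ht'] with w hw hwt
    filter_upwards [hw] with w' hw'
    have h1 := hΛ.dist_le_mul w' hw' w hwt
    rwa [dist_eq_norm, dist_eq_norm] at h1
  have h1 : ContDiffAt ℝ 1 (fderiv ℝ E0) (g 0) :=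
    hE.self_of_nhds.fderiv_right (m := 1) (by norm_cast)
  obtain ⟨M1, hM1, hE1⟩ : ∃ M1 : ℝ, 0 ≤ M1 ∧ ∀ᶠ z in 𝓝 (0 : E n), ‖fderiv ℝ E0 (g z)‖ ≤ M1 ∧
      DifferentiableAt ℝ E0 (g z) := by
    refine ⟨‖fderiv ℝ E0 (g 0)‖ + 1, by positivity, ?_⟩
    have h2 : ContinuousAt (fun z => ‖fderiv ℝ E0 (g z)‖) 0 :=
      (ContinuousAt.comp (f := g) h1.continuousAt hgc.self_of_nhds).norm
    have h3 : ∀ᶠ z in 𝓝 (0 : E n), ‖fderiv ℝ E0 (g z)‖ < ‖fderiv ℝ E0 (g 0)‖ + 1 :=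
      h2.eventually_lt_const (by linarith)
    have h4 : ∀ᶠ z in 𝓝 (0 : E n), ContDiffAt ℝ ∞ E0 (g z) :=
      hgc.self_of_nhds.eventually hE
    filter_upwards [h3, h4] with z hz1 hz2
    exact ⟨hz1.le, hz2.differentiableAt (by simp)⟩
  obtain ⟨m, hm, hinv⟩ := inv_bd hg
  -- the constants
  obtain ⟨Λ', hΛ'd⟩ : ∃ Λ' : ℝ, Λ' = (Λ : ℝ) := ⟨_, rfl⟩
  have hΛ0 : 0 ≤ Λ' := by rw [hΛ'd]; exact Λ.2
  rw [← hΛ'd] at hgl
  obtain ⟨A1, hA1d⟩ : ∃ A1 : ℝ, A1 = M1 * (Λ' * C) := ⟨_, rfl⟩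
  have hA1 : 0 ≤ A1 := by rw [hA1d]; positivity
  obtain ⟨δ', hδ'd⟩ : ∃ δ' : ℝ, δ' = min 1 (δ / (4 * (A1 + 1))) := ⟨_, rfl⟩
  have hδ' : 0 < δ' := by rw [hδ'd]; exact lt_min one_pos (by positivity)
  have hδ'1 : δ' ≤ 1 := by rw [hδ'd]; exact min_le_left _ _
  have hδ'2 : A1 * (2 * δ') ≤ δ / 2 := by
    have h2 : δ' ≤ δ / (4 * (A1 + 1)) := by rw [hδ'd]; exact min_le_right _ _
    rw [le_div_iff₀ (by positivity)] at h2
    nlinarith
  obtain ⟨ρ0, c₀, C', hρ0, hc₀, hmain⟩ := hterm q g E0 T S y hgc hE hT δ' hδ'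
  obtain ⟨r, hr, hunif⟩ := unif hΛ0 hgev hgl (δ := δ' / m) (by positivity)
  obtain ⟨rb, hrb, hb⟩ := Metric.eventually_nhds_iff_ball.1 (hinv.and hE1)
  obtain ⟨A2, hA2d⟩ : ∃ A2 : ℝ, A2 = |C'| * Λ' ^ 2 := ⟨_, rfl⟩
  have hA2 : 0 ≤ A2 := by rw [hA2d]; positivity
  obtain ⟨c₁, hc₁d⟩ : ∃ c₁ : ℝ, c₁ = min (min c₀ 1)
      (min (δ / (2 * (A1 + A2 + 1))) (r / (4 * (|κ| + 1)))) := ⟨_, rfl⟩
  have hκ : 0 ≤ |κ| := abs_nonneg κ
  have hc₁ : 0 < c₁ := by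
    rw [hc₁d]
    exact lt_min (lt_min hc₀ one_pos) (lt_min (by positivity) (by positivity))
  refine ⟨min ρ0 (min (r / 2) rb), c₁, lt_min hρ0 (lt_min (by positivity) hrb), hc₁, ?_⟩
  intro z hz c hc hcc
  have hcc0 : c ≤ c₀ := hcc.trans (by rw [hc₁d]; exact (min_le_left _ _).trans (min_le_left _ _))
  have hc1 : c ≤ 1 := hcc.trans (by rw [hc₁d]; exact (min_le_left _ _).trans (min_le_right _ _))
  have hc2 : (A1 + A2) * c ≤ δ / 2 := by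
    have h2 : c ≤ δ / (2 * (A1 + A2 + 1)) :=
      hcc.trans (by rw [hc₁d]; exact (min_le_right _ _).trans (min_le_left _ _))
    rw [le_div_iff₀ (by positivity)] at h2
    nlinarith
  have hc3 : 2 * |κ| * c < r / 2 := by
    have h2 : c ≤ r / (4 * (|κ| + 1)) :=
      hcc.trans (by rw [hc₁d]; exact (min_le_right _ _).trans (min_le_right _ _))
    rw [le_div_iff₀ (by positivity)] at h2
    nlinarith
  have hzρ : ‖z‖ < ρ0 := hz.trans_le (min_le_left _ _)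
  have hzr : ‖z‖ < r / 2 := hz.trans_le ((min_le_right _ _).trans (min_le_left _ _))
  have hzb : z ∈ ball (0 : E n) rb := by
    rw [mem_ball_zero_iff]
    exact hz.trans_le ((min_le_right _ _).trans (min_le_right _ _))
  have hzr' : z ∈ ball (0 : E n) r := by
    rw [mem_ball_zero_iff]
    linarith
  obtain ⟨hsm, hex⟩ := hmain z hzρ c hc hcc0
  obtain ⟨⟨L, hL, hLi⟩, hEz, hEd⟩ := hb z hzb
  obtain ⟨-, hgn, hgu⟩ := hunif z hzr'
  rw [hL.fderiv] at hgn hgu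
  have hapx : Apx n δ' g z (2 * |κ| * c) L := by
    intro v hv
    have hzv : z + v ∈ ball (0 : E n) r := by
      rw [mem_ball_zero_iff]
      exact (norm_add_le _ _).trans_lt (by linarith)
    have h2 := (hgu _ hzv).2
    rw [add_sub_cancel_left] at h2
    have h3 : L.symm (g (z + v) - g z) - v = L.symm (g (z + v) - g z - L v) := by
      rw [map_sub L.symm (g (z + v) - g z), L.symm_apply_apply]
    rw [h3]
    refine (hLi _).trans ?_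
    calc m * ‖g (z + v) - g z - L v‖ ≤ m * (δ' / m * ‖v‖) := mul_le_mul_of_nonneg_left h2 hm.le
      _ = δ' * ‖v‖ := by field_simp
      _ ≤ δ' * (2 * |κ| * c) := mul_le_mul_of_nonneg_left hv hδ'.le
  obtain ⟨⟨η, ξ, e1, e2, e3⟩, hder⟩ := hex L δ' hδ'.le hδ'1 hapx
  have hDL : ∀ η : E n, ‖fderiv ℝ E0 (g z) (L η)‖ ≤ M1 * (Λ' * ‖η‖) := by
    intro η
    refine ((fderiv ℝ E0 (g z)).le_opNorm _).trans ?_
    refine mul_le_mul hEz ?_ (norm_nonneg _) hM1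
    have h2 := (L : E n →L[ℝ] E n).le_opNorm η
    rw [ContinuousLinearEquiv.coe_coe] at h2
    exact h2.trans (mul_le_mul_of_nonneg_right hgn (norm_nonneg _))
  refine ⟨hsm, ?_, ?_⟩
  · rw [e1]
    refine (norm_add_le _ _).trans ?_
    have h2 : ‖fderiv ℝ E0 (g z) (L η)‖ ≤ A1 * c := by
      refine (hDL η).trans ?_
      calc M1 * (Λ' * ‖η‖) ≤ M1 * (Λ' * (C * c)) := by gcongr
        _ = A1 * c := by rw [hA1d]; ring
    have h3 : ‖ξ‖ ≤ A2 * c := by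
      have h4 : (‖(L : E n →L[ℝ] E n)‖ * c) ^ 2 ≤ Λ' ^ 2 * c := by
        rw [mul_pow]
        refine mul_le_mul (pow_le_pow_left₀ (norm_nonneg _) hgn 2) ?_ (by positivity)
          (by positivity)
        nlinarith
      calc ‖ξ‖ ≤ C' * (‖(L : E n →L[ℝ] E n)‖ * c) ^ 2 := e3
        _ ≤ |C'| * (‖(L : E n →L[ℝ] E n)‖ * c) ^ 2 :=
            mul_le_mul_of_nonneg_right (le_abs_self _) (by positivity)
        _ ≤ |C'| * (Λ' ^ 2 * c) := mul_le_mul_of_nonneg_left h4 (abs_nonneg _)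
        _ = A2 * c := by rw [hA2d]; ring
    have h4 : (A1 + A2) * c = A1 * c + A2 * c := by ring
    linarith
  · refine ContinuousLinearMap.opNorm_le_bound _ hδ.le fun u => ?_
    obtain ⟨η, ξ, f1, f2, f3⟩ := hder u
    have h2 : fderiv ℝ (fun z => E0 (g z)) z = (fderiv ℝ E0 (g z)).comp (L : E n →L[ℝ] E n) :=
      (HasFDerivAt.comp (f := g) z hEd.hasFDerivAt hL).fderiv
    rw [ContinuousLinearMap.sub_apply, f1, h2, ContinuousLinearMap.comp_apply,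
      ContinuousLinearEquiv.coe_coe, map_add L, map_add (fderiv ℝ E0 (g z))]
    have h3 : fderiv ℝ E0 (g z) (L u) + fderiv ℝ E0 (g z) (L η) + ξ - fderiv ℝ E0 (g z) (L u) =
        fderiv ℝ E0 (g z) (L η) + ξ := by abel
    rw [h3]
    refine (norm_add_le _ _).trans ?_
    have h4 : ‖fderiv ℝ E0 (g z) (L η)‖ ≤ δ / 2 * ‖u‖ := by
      refine (hDL η).trans ?_
      calc M1 * (Λ' * ‖η‖) ≤ M1 * (Λ' * (C * (δ' + δ') * ‖u‖)) := by gcongr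
        _ = A1 * (2 * δ') * ‖u‖ := by rw [hA1d]; ring
        _ ≤ δ / 2 * ‖u‖ := mul_le_mul_of_nonneg_right hδ'2 (norm_nonneg _)
    have h5 : ‖ξ‖ ≤ δ / 2 * ‖u‖ := by
      have h6 : ‖(L : E n →L[ℝ] E n)‖ ^ 2 ≤ Λ' ^ 2 := pow_le_pow_left₀ (norm_nonneg _) hgn 2
      calc ‖ξ‖ ≤ C' * ‖(L : E n →L[ℝ] E n)‖ ^ 2 * c * ‖u‖ := f3
        _ = C' * (‖(L : E n →L[ℝ] E n)‖ ^ 2 * c * ‖u‖) := by ring
        _ ≤ |C'| * (‖(L : E n →L[ℝ] E n)‖ ^ 2 * c * ‖u‖) :=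
            mul_le_mul_of_nonneg_right (le_abs_self _) (by positivity)
        _ ≤ |C'| * (Λ' ^ 2 * c * ‖u‖) := by gcongr
        _ = (A2 * c) * ‖u‖ := by rw [hA2d]; ring
        _ ≤ δ / 2 * ‖u‖ := by
            refine mul_le_mul_of_nonneg_right ?_ (norm_nonneg _)
            have : 0 ≤ A1 * c := by positivity
            nlinarith
    calc _ ≤ δ / 2 * ‖u‖ + δ / 2 * ‖u‖ := add_le_add h4 h5
      _ = δ * ‖u‖ := by ring

end Pool.Agent.Y356.NA
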